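import Mathlib
import Pool.Agent.Q102.PathSys

/-!
MP_11d8b4_co, Q1 (negative answer): a consistent path system on a graph with `7` vertices and `9`
edges that is simply induced by real edge weights but by no positive edge weights.
-/

namespace Pool.Agent.Results.MP_11d8b4_co.RealNotPositive

open Pool.Agent.Q102.PathSys

/-- `w` simply induces the path system: each of its paths is the unique simple path of minimum
weight between its (distinct) ends -/
def SimplyInduces {V : Type*} {G : SimpleGraph V} (w : Sym2 V → ℝ) (S : PathSystem G) : Prop :=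
  ∀ u v, u ≠ v → ∀ q : G.Walk u v, q.IsPath → q ≠ S.P u v → weight w (S.P u v) < weight w q

/-- weights of the nine edges (`0` for non-edges) -/
def Wtab : List (List ℤ) := [
    [0, 0, 0, 0, 0, 5, 4],
    [0, 0, 0, 0, 0, 5, 4],
    [0, 0, 0, 0, 3, 0, 2],
    [0, 0, 0, 0, 5, 0, 4],
    [0, 0, 3, 5, 0, -3, 0],
    [5, 5, 0, 0, -3, 0, 0],
    [4, 4, 2, 4, 0, 0, 0]]

/-- the paths -/
def Ptab : List (List (List (Fin 7))) := [
    [[0], [0, 6, 1], [0, 5, 4, 2], [0, 5, 4, 3], [0, 5, 4], [0, 5], [0, 6]],
    [[1, 6, 0], [1], [1, 5, 4, 2], [1, 5, 4, 3], [1, 5, 4], [1, 5], [1, 6]],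
    [[2, 4, 5, 0], [2, 4, 5, 1], [2], [2, 6, 3], [2, 4], [2, 4, 5], [2, 6]],
    [[3, 4, 5, 0], [3, 4, 5, 1], [3, 6, 2], [3], [3, 4], [3, 4, 5], [3, 6]],
    [[4, 5, 0], [4, 5, 1], [4, 2], [4, 3], [4], [4, 5], [4, 2, 6]],
    [[5, 0], [5, 1], [5, 4, 2], [5, 4, 3], [5, 4], [5], [5, 4, 2, 6]],
    [[6, 0], [6, 1], [6, 2], [6, 3], [6, 2, 4], [6, 2, 4, 5], [6]]]

/-- weight table -/
def W (a b : Fin 7) : ℤ := (Wtab.getD a []).getD b 0

/-- adjacency table: the pairs of non-zero weight -/
def A (a b : Fin 7) : Bool := W a b != 0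

/-- path table -/
def sup (a b : Fin 7) : List (Fin 7) := (Ptab.getD a []).getD b []

theorem W_symm : ∀ a b, W a b = W b a := by decide

/-- the graph -/
def H : SimpleGraph (Fin 7) where
  Adj a b := A a b = true
  symm := ⟨by decide⟩
  loopless := ⟨by decide⟩

/-- the path system -/
noncomputable def sys : PathSystem H :=
  ofTable H A (fun _ _ h => h) sup (by decide) (by decide) (by decide)

theorem sys_consistent : Consistent sys := ofTable_consistent (by decide +kernel)

theorem H_connected : H.Connected := by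
  rw [SimpleGraph.connected_iff]
  exact ⟨fun u v => ⟨sys.P u v⟩, ⟨0⟩⟩

theorem real_check : ∀ u : Fin 7, ∀ l ∈ pathsFrom A 6 u [], ∀ v : Fin 7, l.getLast? = some v →
    l ≠ sup u v → wtL W (sup u v) < wtL W l := by decide +kernel

theorem sys_real : SimplyInduces (wOf W W_symm) sys := by
  intro u v _ q hq hne
  have hlen : q.length ≤ 6 := by
    have := hq.length_lt
    rw [Fintype.card_fin] at this
    omega
  have hmem := mem_pathsFrom (A := A) (H := H) (fun _ _ h => h) 6 u v [] q hq (by simp) hlen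
  have hsup : q.support ≠ sup u v := by
    intro h
    apply hne
    apply SimpleGraph.Walk.ext_support
    rw [h]
    exact (ofTable_support u v).symm
  have := real_check u _ hmem v (last_support q) hsup
  rw [weight_eq, weight_eq]
  have e : (sys.P u v).support = sup u v := ofTable_support u v
  rw [e]
  exact_mod_cast this

theorem sys_not_positive : ¬ ∃ w : Sym2 (Fin 7) → ℝ, (∀ e ∈ H.edgeSet, 0 < w e) ∧
    SimplyInduces w sys := by
  rintro ⟨w, hpos, hw⟩
  have key : ∀ (u v : Fin 7) (l : List (Fin 7)), isWalk A v u l = true → l.Nodup → u ≠ v →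
      l ≠ sup u v → wtS w (sup u v) < wtS w l := by
    intro u v l h1 h2 h3 h4
    obtain ⟨q, hq⟩ := exists_walk (H := H) (A := A) (fun _ _ h => h) l u h1
    have hqp : q.IsPath := by rw [SimpleGraph.Walk.isPath_def, hq]; exact h2
    have hne : q ≠ sys.P u v := by
      rintro rfl
      exact h4 (hq.symm.trans (ofTable_support u v))
    have := hw u v h3 q hqp hne
    rw [weight_eq_wtS, weight_eq_wtS, hq] at this
    have e : (sys.P u v).support = sup u v := ofTable_support u v
    rwa [e] at this
  have e1 := key 0 2 [0, 6, 2] (by decide) (by decide) (by decide) (by decide)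
  have e2 := key 1 3 [1, 6, 3] (by decide) (by decide) (by decide) (by decide)
  have e3 := key 0 1 [0, 5, 1] (by decide) (by decide) (by decide) (by decide)
  have e4 := key 2 3 [2, 4, 3] (by decide) (by decide) (by decide) (by decide)
  rw [show sup 0 2 = [0, 5, 4, 2] by decide] at e1
  rw [show sup 1 3 = [1, 5, 4, 3] by decide] at e2
  rw [show sup 0 1 = [0, 6, 1] by decide] at e3
  rw [show sup 2 3 = [2, 6, 3] by decide] at e4
  simp only [wtS] at e1 e2 e3 e4
  have c : ∀ a b : Fin 7, w s(a, b) = w s(b, a) := fun a b => by rw [Sym2.eq_swap]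
  have hp : 0 < w s(5, 4) := hpos _ (by
    rw [SimpleGraph.mem_edgeSet]
    show A 5 4 = true
    decide)
  linarith [c 0 5, c 1 5, c 0 6, c 1 6, c 2 6, c 3 6, c 2 4, c 3 4, c 4 5]

theorem result : ¬ ∀ (V : Type) [Fintype V] (G : SimpleGraph V) (S : PathSystem G),
    G.Connected → Consistent S → (∃ w : Sym2 V → ℝ, SimplyInduces w S) →
    ∃ w : Sym2 V → ℝ, (∀ e ∈ G.edgeSet, 0 < w e) ∧ SimplyInduces w S := by
  intro h
  exact sys_not_positive (h (Fin 7) H sys H_connected sys_consistent ⟨_, sys_real⟩)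

end Pool.Agent.Results.MP_11d8b4_co.RealNotPositive
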